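import Pool.Agent.Helper3_PPE.Stmts
import Pool.Agent.Helper33_PPZ.ConA

/-!
# CON: the case where `Φ` is the same constant on all curves
-/

set_option autoImplicit false

universe u

namespace Pool.Agent.PPE.H33

open MvPolynomial PGH PPX PPZ

section

variable {K : ℕ} {k : Type u} [Field k] {N₁ N₂ : ℕ} {a : Fin N₁ → k} {b : Fin N₂ → k} (C : BC K a b)

theorem ev_inc (F : MvPolynomial (Fin 2) k) : C.ev (inc F) = C.ev2 F := by
  unfold BC.ev BC.ev2 inc
  rw [aeval_rename]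
  congr 1
  apply MvPolynomial.algHom_ext
  intro i
  fin_cases i <;> simp [BC.pt]

theorem ev_X2 : C.ev (X 2) = C.th := by
  unfold BC.ev
  rw [aeval_X]
  rfl

theorem ev2_X0 : C.ev2 (X 0) = C.x := by
  unfold BC.ev2
  rw [aeval_X]
  rfl

theorem ev2_X1 : C.ev2 (X 1) = C.z := by
  unfold BC.ev2
  rw [aeval_X]
  rfl

theorem ev2_C (c : k) : C.ev2 (MvPolynomial.C c) = algebraMap k C.E c := by
  unfold BC.ev2
  rw [aeval_C]

theorem ev2_mul (F G : MvPolynomial (Fin 2) k) : C.ev2 (F * G) = C.ev2 F * C.ev2 G := map_mul _ _ _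

theorem ev2_sub (F G : MvPolynomial (Fin 2) k) : C.ev2 (F - G) = C.ev2 F - C.ev2 G := map_sub _ _ _

theorem ev2_pow (F : MvPolynomial (Fin 2) k) (n : ℕ) : C.ev2 (F ^ n) = C.ev2 F ^ n := map_pow _ _ _

theorem ev2_prod {ι : Type*} (s : Finset ι) (F : ι → MvPolynomial (Fin 2) k) :
    C.ev2 (∏ i ∈ s, F i) = ∏ i ∈ s, C.ev2 (F i) := map_prod _ _ _

theorem ev_mul (F G : P4 k) : C.ev (F * G) = C.ev F * C.ev G := map_mul _ _ _

theorem ev_sub (F G : P4 k) : C.ev (F - G) = C.ev F - C.ev G := map_sub _ _ _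

theorem ev_pow (F : P4 k) (n : ℕ) : C.ev (F ^ n) = C.ev F ^ n := map_pow _ _ _

theorem ev_C (c : k) : C.ev (MvPolynomial.C c) = algebraMap k C.E c := by
  unfold BC.ev
  rw [aeval_C]

/-- `∏ (x - a i)` in two variables -/
noncomputable def f0 (a : Fin N₁ → k) : MvPolynomial (Fin 2) k :=
  ∏ i, (X 0 - MvPolynomial.C (a i))

/-- `∏ (z - b j)` in two variables -/
noncomputable def g0 (b : Fin N₂ → k) : MvPolynomial (Fin 2) k :=
  ∏ j, (X 1 - MvPolynomial.C (b j))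

theorem ev2_f0 : C.ev2 (f0 a) = C.f := by
  unfold f0 BC.f
  rw [ev2_prod]
  apply Finset.prod_congr rfl
  intro i _
  rw [ev2_sub, ev2_X0, ev2_C]

theorem ev2_g0 : C.ev2 (g0 b) = C.g := by
  unfold g0 BC.g
  rw [ev2_prod]
  apply Finset.prod_congr rfl
  intro i _
  rw [ev2_sub, ev2_X1, ev2_C]

theorem X_sub_C_ne (i : Fin 2) (c : k) :
    (X i - MvPolynomial.C c : MvPolynomial (Fin 2) k) ≠ 0 := by
  intro h
  have h1 := congrArg (eval fun _ => c + 1) h
  rw [map_sub, eval_X, eval_C, map_zero] at h1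
  simp at h1

theorem f0_ne (a : Fin N₁ → k) : f0 a ≠ 0 := Finset.prod_ne_zero_iff.2 fun _ _ => X_sub_C_ne 0 _

theorem g0_ne (b : Fin N₂ → k) : g0 b ≠ 0 := Finset.prod_ne_zero_iff.2 fun _ _ => X_sub_C_ne 1 _

/-- the denominators and numerators of `Φ` -/
noncomputable def UU (s₁ s₂ : Finset k) (m₁ m₂ : k → ℤ) : MvPolynomial (Fin 2) k :=
  (∏ c ∈ s₁, (X 0 - MvPolynomial.C c) ^ (m₁ c).toNat) *
    ∏ c ∈ s₂, (X 1 - MvPolynomial.C c) ^ (-m₂ c).toNat

theorem UU_ne (s₁ s₂ : Finset k) (m₁ m₂ : k → ℤ) : UU s₁ s₂ m₁ m₂ ≠ 0 :=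
  mul_ne_zero (Finset.prod_ne_zero_iff.2 fun _ _ => pow_ne_zero _ (X_sub_C_ne 0 _))
    (Finset.prod_ne_zero_iff.2 fun _ _ => pow_ne_zero _ (X_sub_C_ne 1 _))

theorem eval_UU (s₁ s₂ : Finset k) (m₁ m₂ : k → ℤ) {α β : k} (hα : α ∉ s₁) (hβ : β ∉ s₂) :
    eval ![α, β] (UU s₁ s₂ m₁ m₂) ≠ 0 := by
  unfold UU
  rw [map_mul, map_prod, map_prod]
  apply mul_ne_zero
  · apply Finset.prod_ne_zero_iff.2
    intro c hc
    rw [map_pow, map_sub, eval_X, eval_C]
    apply pow_ne_zero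
    intro h
    have : α = c := sub_eq_zero.1 h
    exact hα (this ▸ hc)
  · apply Finset.prod_ne_zero_iff.2
    intro c hc
    rw [map_pow, map_sub, eval_X, eval_C]
    apply pow_ne_zero
    intro h
    have : β = c := sub_eq_zero.1 h
    exact hβ (this ▸ hc)

theorem zpow_mul_toNat {E : Type*} [Field E] {y : E} (hy : y ≠ 0) (m : ℤ) :
    y ^ m * y ^ (-m).toNat = y ^ m.toNat := by
  rw [← zpow_natCast, ← zpow_natCast, ← zpow_add₀ hy]
  congr 1
  omega

theorem Phi_mul (hx : ∀ c : k, algebraMap k C.E c ≠ C.x) (hz : ∀ c : k, algebraMap k C.E c ≠ C.z)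
    (s₁ s₂ : Finset k) (d : ℕ) (m₁ m₂ : k → ℤ) :
    Phi C s₁ s₂ d m₁ m₂ * C.ev2 (UU s₁ s₂ (fun c => -m₁ c) (fun c => -m₂ c)) =
      C.ph ^ d * C.ev2 (UU s₁ s₂ m₁ m₂) := by
  unfold Phi UU
  rw [ev2_mul, ev2_mul, ev2_prod, ev2_prod, ev2_prod, ev2_prod]
  have e1 : (∏ c ∈ s₁, (C.x - algebraMap k C.E c) ^ m₁ c) *
      ∏ c ∈ s₁, C.ev2 ((X 0 - MvPolynomial.C c) ^ (-m₁ c).toNat) =
      ∏ c ∈ s₁, C.ev2 ((X 0 - MvPolynomial.C c) ^ (m₁ c).toNat) := by
    rw [← Finset.prod_mul_distrib]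
    apply Finset.prod_congr rfl
    intro c _
    rw [ev2_pow, ev2_pow, ev2_sub, ev2_X0, ev2_C]
    exact zpow_mul_toNat (sub_ne_zero.2 (hx c).symm) _
  have e2 : (∏ c ∈ s₂, (C.z - algebraMap k C.E c) ^ (-m₂ c)) *
      ∏ c ∈ s₂, C.ev2 ((X 1 - MvPolynomial.C c) ^ (-(-m₂ c)).toNat) =
      ∏ c ∈ s₂, C.ev2 ((X 1 - MvPolynomial.C c) ^ (-m₂ c).toNat) := by
    rw [← Finset.prod_mul_distrib]
    apply Finset.prod_congr rfl
    intro c _
    rw [ev2_pow, ev2_pow, ev2_sub, ev2_X1, ev2_C]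
    exact zpow_mul_toNat (sub_ne_zero.2 (hz c).symm) _
  rw [← e1, ← e2]
  ring

theorem geC_mul {P : Place k C.E} {u v : C.E} {α β : k} (hu : P.Ge 1 (u - algebraMap k C.E α))
    (hv : P.Ge 1 (v - algebraMap k C.E β)) : P.Ge 1 (u * v - algebraMap k C.E (α * β)) := by
  have h1 : P.Ge 0 v := P.ge_zero_of_res hv
  have h2 := Place.Ge.mul' hu h1 (l := 1) (by norm_num)
  have h3 := Place.Ge.mul' (P.ge_const α) hv (l := 1) (by norm_num)
  have h4 := h2.add h3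
  rw [map_mul]
  have e : (u - algebraMap k C.E α) * v + algebraMap k C.E α * (v - algebraMap k C.E β) =
      u * v - algebraMap k C.E α * algebraMap k C.E β := by ring
  rw [e] at h4
  exact h4

theorem geC_pow {P : Place k C.E} {u : C.E} {α : k} (hu : P.Ge 1 (u - algebraMap k C.E α)) (n : ℕ) :
    P.Ge 1 (u ^ n - algebraMap k C.E (α ^ n)) := by
  induction n with
  | zero => rw [pow_zero, pow_zero, map_one, sub_self]; exact P.ge_zero _
  | succ n ih => rw [pow_succ, pow_succ]; exact geC_mul C ih hu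

/-- the value at a good place of a relation -/
theorem value (val : ValStmt.{u} K) [IsAlgClosed k] [CharZero k] (ha : Function.Injective a)
    (hb : Function.Injective b) (hf : C.f ≠ 0) {d' : ℕ} {A B : MvPolynomial (Fin 2) k}
    (h : C.ev (inc B * X 2 ^ d' * inc (g0 b) ^ (2 * d') - inc A * inc (f0 a) ^ (2 * d')) = 0)
    (i : Fin N₁) (j : Fin N₂) (P : Place k C.E) (hP : C.Nd i j P) :
    ∃ τ : k, P.Ge 1 (C.th - algebraMap k C.E τ) ∧
      eval ![a i, b j] B * ((dpr b j / dpr a i) ^ 2) ^ d' = eval ![a i, b j] A * τ ^ d' := by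
  obtain ⟨τ, _, h1, h2, _, h4⟩ := val a b ha hb C i j P hP
  refine ⟨τ, ?_, ?_⟩
  · have := h1 2
    exact this
  set γ : k := (dpr b j / dpr a i) ^ 2 with hγ
  have hln : ∀ F : MvPolynomial (Fin 2) k, (ln a b i j (inc F)).eval τ = eval ![a i, b j] F := by
    intro F
    have e1 : ∀ Q : P4 k, (ln a b i j Q).eval τ = eval (pnt a b i j τ) Q := by
      have : (Polynomial.evalRingHom τ).comp (aeval ![Polynomial.C (a i), Polynomial.C (b j),
          Polynomial.X, Polynomial.C (slope b j) - Polynomial.C (slope a i) * Polynomial.X] :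
            P4 k →ₐ[k] Polynomial k).toRingHom = eval (pnt a b i j τ) := by
        apply MvPolynomial.ringHom_ext
        · intro r
          simp
        · intro v
          fin_cases v <;> simp [pnt]
      exact fun Q => congrArg (fun φ : P4 k →+* k => φ Q) this
    rw [e1]
    unfold inc
    rw [eval_rename]
    congr 1
    congr 1
    funext v
    fin_cases v <;> simp [pnt]
  have hge : ∀ F : MvPolynomial (Fin 2) k,
      P.Ge 1 (C.ev2 F - algebraMap k C.E (eval ![a i, b j] F)) := by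
    intro F
    have h5 := h2 (inc F - MvPolynomial.C (eval ![a i, b j] F)) (by
      rw [map_sub, Polynomial.eval_sub, hln]
      have e : ln a b i j (MvPolynomial.C (eval ![a i, b j] F)) =
          Polynomial.C (eval ![a i, b j] F) := by
        unfold ln lin
        rw [aeval_C]
        rfl
      rw [e, Polynomial.eval_C, sub_self])
    rw [ev_sub, ev_inc, ev_C] at h5
    exact h5
  have hτ : P.Ge 1 (C.th - algebraMap k C.E τ) := h1 2
  rw [ev_sub, ev_mul, ev_mul, ev_mul, ev_inc, ev_inc, ev_pow, ev_pow, ev_pow, ev_inc, ev_inc,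
    ev_X2, ev2_f0, ev2_g0, sub_eq_zero] at h
  have h6 : C.ev2 B * (C.th * C.ph) ^ d' = C.ev2 A * C.th ^ d' := by
    have h7 : C.f ^ (2 * d') ≠ 0 := pow_ne_zero _ hf
    apply mul_right_cancel₀ h7
    have e1 : (C.th * C.ph) ^ d' * C.f ^ (2 * d') = C.th ^ d' * (C.th ^ d' * C.g ^ (2 * d')) := by
      unfold BC.ph
      rw [pow_mul, pow_mul, ← mul_pow, ← mul_pow, ← mul_pow]
      congr 1
      have h8 : C.f ^ 2 ≠ 0 := pow_ne_zero _ hf
      rw [mul_assoc, div_mul_cancel₀ _ h8]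
    rw [mul_assoc, e1]
    calc C.ev2 B * (C.th ^ d' * (C.th ^ d' * C.g ^ (2 * d'))) =
        C.th ^ d' * (C.ev2 B * C.th ^ d' * C.g ^ (2 * d')) := by ring
      _ = _ := by rw [h]; ring
  have h9 := geC_mul C (hge B) (geC_pow C h4 d')
  have h10 := geC_mul C (hge A) (geC_pow C hτ d')
  rw [h6] at h9
  exact P.res_unique h9 h10

theorem rel1 (hf : C.f ≠ 0) (hx : ∀ c : k, algebraMap k C.E c ≠ C.x)
    (hz : ∀ c : k, algebraMap k C.E c ≠ C.z) {s₁ s₂ : Finset k} {d : ℕ} {m₁ m₂ : k → ℤ} {c : k}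
    (h : Phi C s₁ s₂ d m₁ m₂ = algebraMap k C.E c) :
    C.ev ((X 2) ^ d * inc (g0 b) ^ (2 * d) * inc (UU s₁ s₂ m₁ m₂) - inc (f0 a) ^ (2 * d) *
      inc (MvPolynomial.C c * UU s₁ s₂ (fun c => -m₁ c) (fun c => -m₂ c))) = 0 := by
  have h1 := Phi_mul C hx hz s₁ s₂ d m₁ m₂
  rw [h] at h1
  rw [ev_sub, ev_mul, ev_mul, ev_mul, ev_inc, ev_inc, ev_pow, ev_pow, ev_pow, ev_inc, ev_inc,
    ev_X2, ev2_f0, ev2_g0, ev2_mul, ev2_C, h1, sub_eq_zero]
  have e1 : C.f ^ (2 * d) * C.ph ^ d = C.th ^ d * C.g ^ (2 * d) := by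
    unfold BC.ph
    rw [pow_mul, pow_mul, ← mul_pow, ← mul_pow]
    congr 1
    have h8 : C.f ^ 2 ≠ 0 := pow_ne_zero _ hf
    rw [mul_comm, div_mul_cancel₀ _ h8]
  rw [← mul_assoc, e1]

theorem rel2 {G : Polynomial (MvPolynomial (Fin 2) k)} (h : RootTh C G) :
    C.ev (G.eval₂ (inc : MvPolynomial (Fin 2) k →ₐ[k] P4 k).toRingHom (X 2)) = 0 := by
  unfold RootTh at h
  have e1 : C.ev (G.eval₂ (inc : MvPolynomial (Fin 2) k →ₐ[k] P4 k).toRingHom (X 2)) =
      (aeval C.pt : P4 k →ₐ[k] C.E).toRingHom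
        (G.eval₂ (inc : MvPolynomial (Fin 2) k →ₐ[k] P4 k).toRingHom (X 2)) := rfl
  rw [e1, Polynomial.hom_eval₂]
  have e2 : ((aeval C.pt : P4 k →ₐ[k] C.E).toRingHom).comp
      (inc : MvPolynomial (Fin 2) k →ₐ[k] P4 k).toRingHom =
      (aeval ![C.x, C.z] : MvPolynomial (Fin 2) k →ₐ[k] C.E).toRingHom := by
    ext F
    · exact ev_inc C _
    · exact ev_inc C _
  rw [e2]
  have e3 : (aeval C.pt : P4 k →ₐ[k] C.E).toRingHom (X 2) = C.th := ev_X2 C
  rw [e3]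
  exact h

theorem dpr_ne {N : ℕ} {b : Fin N → k} (hb : Function.Injective b) (j : Fin N) : dpr b j ≠ 0 := by
  unfold dpr
  apply Finset.prod_ne_zero_iff.2
  intro l hl
  rw [Finset.mem_erase] at hl
  exact sub_ne_zero.2 fun h => hl.1 (hb h).symm

open Classical in
/-- the possible values of `θ` -/
noncomputable def vals (s₁ s₂ : Finset k) (a : Fin N₁ → k) (b : Fin N₂ → k) (d' : ℕ)
    (A B : MvPolynomial (Fin 2) k) (i : Fin N₁) (j : Fin N₂) : Finset k :=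
  if a i ∉ s₁ ∧ b j ∉ s₂ then
    (Polynomial.C (eval ![a i, b j] A) * Polynomial.X ^ d' -
      Polynomial.C (eval ![a i, b j] B * ((dpr b j / dpr a i) ^ 2) ^ d')).roots.toFinset
  else ∅

theorem card_vals (s₁ s₂ : Finset k) (a : Fin N₁ → k) (b : Fin N₂ → k) (d' : ℕ)
    (A B : MvPolynomial (Fin 2) k) (i : Fin N₁) (j : Fin N₂) :
    (vals s₁ s₂ a b d' A B i j).card ≤ d' := by
  classical
  unfold vals
  split_ifs with h
  · refine (Multiset.toFinset_card_le _).trans ((Polynomial.card_roots' _).trans ?_)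
    compute_degree
  · simp

theorem mem_vals {s₁ s₂ : Finset k} (ha : Function.Injective a) (hb : Function.Injective b)
    {d' : ℕ} (hd' : 0 < d') {A B : MvPolynomial (Fin 2) k} {i : Fin N₁} {j : Fin N₂}
    (h1 : a i ∉ s₁) (h2 : b j ∉ s₂) (hB : eval ![a i, b j] B ≠ 0) {τ : k}
    (h : eval ![a i, b j] B * ((dpr b j / dpr a i) ^ 2) ^ d' = eval ![a i, b j] A * τ ^ d') :
    τ ∈ vals s₁ s₂ a b d' A B i j := by
  classical
  unfold vals
  rw [if_pos ⟨h1, h2⟩, Multiset.mem_toFinset, Polynomial.mem_roots', Polynomial.IsRoot.def]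
  constructor
  · intro h0
    have h3 := congrArg (Polynomial.eval 0) h0
    rw [Polynomial.eval_sub, Polynomial.eval_mul, Polynomial.eval_pow, Polynomial.eval_X,
      zero_pow hd'.ne', mul_zero, Polynomial.eval_C, Polynomial.eval_zero, zero_sub,
      neg_eq_zero] at h3
    exact mul_ne_zero hB (pow_ne_zero _ (pow_ne_zero _ (div_ne_zero (dpr_ne hb j)
      (dpr_ne ha i)))) h3
  · rw [Polynomial.eval_sub, Polynomial.eval_mul, Polynomial.eval_pow, Polynomial.eval_X,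
      Polynomial.eval_C, Polynomial.eval_C, h, sub_self]

/-- the number of good places over the points `(a i, b j)` with `a i ∈ s₁` or `b j ∈ s₂` -/
theorem count (nod : NodStmt.{u} K) [IsAlgClosed k] [CharZero k] (ha : Function.Injective a)
    (hb : Function.Injective b) {s₁ s₂ : Finset k} (hs : Small 16 C s₁ s₂)
    (S : Set (Place k C.E)) (hS : S ⊆ C.nodes)
    (h : ∀ i j P, C.Nd i j P → a i ∉ s₁ → b j ∉ s₂ → P ∈ S) :
    7 * C.n ≤ 8 * S.ncard := by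
  classical
  obtain ⟨nfin, _, _, _, _, _, _, hi, hj, _, _⟩ := nod a b ha hb C
  set I : Finset (Fin N₁) := Finset.univ.filter fun i => a i ∈ s₁ with hI
  set J : Finset (Fin N₂) := Finset.univ.filter fun j => b j ∈ s₂ with hJ
  set ZI : Set (Place k C.E) :=
    ⋃ i ∈ I, {P ∈ C.nodes | P.ord (C.x - algebraMap k C.E (a i)) = 1} with hZI
  set ZJ : Set (Place k C.E) :=
    ⋃ j ∈ J, {P ∈ C.nodes | P.ord (C.z - algebraMap k C.E (b j)) = 1} with hZJ
  have hIc : I.card ≤ s₁.card := by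
    apply Finset.card_le_card_of_injOn a
    · intro i hi'
      exact (Finset.mem_filter.1 hi').2
    · exact ha.injOn
  have hJc : J.card ≤ s₂.card := by
    apply Finset.card_le_card_of_injOn b
    · intro i hi'
      exact (Finset.mem_filter.1 hi').2
    · exact hb.injOn
  have hZIc : ZI.ncard ≤ s₁.card * ht k C.x := by
    refine (Finset.set_ncard_biUnion_le _ _).trans ((Finset.sum_le_card_nsmul _ _ _
      fun i _ => hi i).trans ?_)
    rw [smul_eq_mul]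
    exact Nat.mul_le_mul_right _ hIc
  have hZJc : ZJ.ncard ≤ s₂.card * ht k C.z := by
    refine (Finset.set_ncard_biUnion_le _ _).trans ((Finset.sum_le_card_nsmul _ _ _
      fun i _ => hj i).trans ?_)
    rw [smul_eq_mul]
    exact Nat.mul_le_mul_right _ hJc
  have hZIn : ZI ⊆ C.nodes := by
    rw [hZI]
    exact Set.iUnion₂_subset fun i _ P hP => hP.1
  have hZJn : ZJ ⊆ C.nodes := by
    rw [hZJ]
    exact Set.iUnion₂_subset fun i _ P hP => hP.1
  have hcov : C.nodes ⊆ S ∪ (ZI ∪ ZJ) := by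
    rintro P ⟨i, j, hP⟩
    by_cases h1 : a i ∈ s₁
    · right; left
      rw [hZI]
      exact Set.mem_iUnion₂.2 ⟨i, Finset.mem_filter.2 ⟨Finset.mem_univ _, h1⟩, ⟨i, j, hP⟩, hP.2.1⟩
    · by_cases h2 : b j ∈ s₂
      · right; right
        rw [hZJ]
        exact Set.mem_iUnion₂.2 ⟨j, Finset.mem_filter.2 ⟨Finset.mem_univ _, h2⟩, ⟨i, j, hP⟩,
          hP.2.2⟩
      · left
        exact h i j P hP h1 h2
  have hfin : (S ∪ (ZI ∪ ZJ)).Finite :=
    nfin.subset (Set.union_subset hS (Set.union_subset hZIn hZJn))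
  have h3 : C.n ≤ S.ncard + (ZI.ncard + ZJ.ncard) :=
    (Set.ncard_le_ncard hcov hfin).trans ((Set.ncard_union_le _ _).trans
      (Nat.add_le_add_left (Set.ncard_union_le _ _) _))
  obtain ⟨hs1, hs2⟩ := hs
  rw [mul_assoc] at hs1 hs2
  omega

end

/-- CON. -/
theorem con (K : ℕ) (nod : NodStmt.{u} K) (val : ValStmt.{u} K) (pri : PriStmt.{u} K) (xze : XzeStmt.{u} K)
    (kum : KumStmt.{u}) : ConStmt.{u} K := by
  obtain ⟨N₀, hN₀⟩ := xze 32 2 (by norm_num)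
  refine ⟨max (4 * K) N₀, ?_⟩
  intro k _ _ _ N₁ N₂ a b hN₁ hN₂ ha hb s₁ s₂ ρ₁ ρ₂ d m₁ m₂ hd _ _ G hG hG32 T c hc hT
  obtain ⟨hprime, hplane, _⟩ := pri a b T
  have hfne : ∀ i, (T.C i).f ≠ 0 := by
    intro i
    obtain ⟨_, _, _, _, _, _, _, _, _, hcst, _⟩ := nod a b ha hb (T.C i)
    unfold BC.f
    apply Finset.prod_ne_zero_iff.2
    intro l _
    exact sub_ne_zero.2 (hcst (a l)).1.symm
  have hth : (X 2 : P4 k) ∉ T.v := by
    intro h
    have h' : ∀ᶠ i in (T.U : Filter T.ι), (T.C i).ev (X 2) = 0 := h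
    obtain ⟨i, hi⟩ := h'.exists
    rw [ev_X2] at hi
    obtain ⟨_, _, _, _, _, _, _, _, _, _, hth⟩ := nod a b ha hb (T.C i)
    exact hth hi
  have r1 : (X 2 : P4 k) ^ d * inc (g0 b) ^ (2 * d) * inc (UU s₁ s₂ m₁ m₂) -
      inc (f0 a) ^ (2 * d) *
        inc (MvPolynomial.C c * UU s₁ s₂ (fun c => -m₁ c) (fun c => -m₂ c)) ∈ T.v := by
    change ∀ᶠ i in (T.U : Filter T.ι), _
    filter_upwards [hT] with i hi
    obtain ⟨_, _, _, _, _, _, _, _, _, hcst, _⟩ := nod a b ha hb (T.C i)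
    exact rel1 (T.C i) (hfne i) (fun c => (hcst c).1) (fun c => (hcst c).2) hi.2.2
  have r2 : G.eval₂ (inc : MvPolynomial (Fin 2) k →ₐ[k] P4 k).toRingHom (X 2) ∈ T.v := by
    change ∀ᶠ i in (T.U : Filter T.ι), _
    filter_upwards [hT] with i hi
    exact rel2 (T.C i) hi.2.1
  obtain ⟨d', A, B, hd', hd32, r3, hB⟩ := PPZ.H33.conA kum T.v hprime hplane hth (f0 a) (g0 b)
    (UU s₁ s₂ m₁ m₂) _ (f0_ne a) (g0_ne b) (UU_ne _ _ _ _) d hd r1 G hG hG32 r2
  have r3' : ∀ᶠ i in (T.U : Filter T.ι),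
      (T.C i).ev (inc B * X 2 ^ d' * inc (g0 b) ^ (2 * d') - inc A * inc (f0 a) ^ (2 * d')) = 0 := r3
  have hx := hN₀ a b ((le_max_right _ _).trans hN₁) ((le_max_right _ _).trans hN₂) ha hb
    (vals s₁ s₂ a b d' A B) (fun i j => (card_vals _ _ _ _ _ _ _ _ _).trans hd32) T
  obtain ⟨i, ⟨hi1, hi2⟩, hi3⟩ := ((hT.and r3').and hx).exists
  have hcount := count (T.C i) nod ha hb hi1.1 ((T.C i).fixed (vals s₁ s₂ a b d' A B))
    (fun P ⟨l, j, hP, _⟩ => ⟨l, j, hP⟩) (by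
      intro l j P hP h1 h2
      obtain ⟨τ, h3, h4⟩ := value (T.C i) val ha hb (hfne i) hi2 l j P hP
      exact ⟨l, j, hP, τ, mem_vals ha hb hd' h1 h2 (hB _ (eval_UU _ _ _ _ h1 h2)) h4, h3⟩)
  obtain ⟨_, hpos, _, _, hN, _, _, _, _, _, _⟩ := nod a b ha hb (T.C i)
  have h5 := hN (4 * K) le_rfl ((le_max_left _ _).trans hN₁) ((le_max_left _ _).trans hN₂)
  have h6 : 20 * (T.C i).h ≤ K * (T.C i).h := Nat.mul_le_mul_right _ (T.C i).hK
  rw [mul_assoc] at h5
  omega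

end Pool.Agent.PPE.H33
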